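import Pool.Agent.Work.MP_3e81b4_47.Assembly_h89

set_option autoImplicit false

/-!
MP_3e81b4_pr, Q1 (Erdős): for every `k ≥ 3` the property `χ(G(n,M)) ≤ k` has a sharp threshold at a
constant density `c`: a uniform random graph with `n` vertices and `M(n)` edges has chromatic number
at most `k` with probability tending to one as soon as `M(n) ≤ (c - ε) n` for all large `n`, and with
probability tending to zero as soon as `M(n) ≥ (c + ε) n` for all large `n`.
-/

namespace Pool.Agent.Results.MP_3e81b4_pr.ColourabilityThreshold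

open Filter

/-- the graphs on the vertex set `Fin n` with exactly `M` edges -/
abbrev GraphsWith (n M : ℕ) : Type := {G : SimpleGraph (Fin n) // G.edgeSet.ncard = M}

/-- the probability that a uniform random graph with vertex set `Fin n` and exactly `M` edges has
chromatic number at most `k` -/
noncomputable def chiProb (k n M : ℕ) : ℝ :=
  (Nat.card {G : GraphsWith n M // G.1.chromaticNumber ≤ (k : ℕ∞)} : ℝ) /
    (Nat.card (GraphsWith n M) : ℝ)

theorem chiProb_eq (k n M : ℕ) : chiProb k n M = Pool.ER.ps k n M := by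
  unfold chiProb Pool.ER.ps
  congr 2
  apply Nat.card_congr
  refine (Equiv.subtypeSubtypeEquivSubtypeInter
    (fun G : SimpleGraph (Fin n) => G.edgeSet.ncard = M)
    (fun G => G.chromaticNumber ≤ (k : ℕ∞))).trans (Equiv.subtypeEquivRight ?_)
  intro G
  rw [SimpleGraph.chromaticNumber_le_iff_colorable]

/-- more edges make `k`-colourability less likely -/
theorem ps_anti (k n m m' : ℕ) (h : m ≤ m') (h' : m' ≤ n.choose 2) :
    Pool.ER.ps k n m' ≤ Pool.ER.ps k n m := by
  classical
  have hcard : m' ≤ Fintype.card (Pool.ER.TR.Edg n) := by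
    rw [Sym2.card_subtype_not_diag, Fintype.card_fin]; exact h'
  obtain ⟨T', -, hT'⟩ := Finset.exists_subset_card_eq
    (s := (Finset.univ : Finset (Pool.ER.TR.Edg n))) (n := m') (by simpa using hcard)
  obtain ⟨T, hT, hTc⟩ := Finset.exists_subset_card_eq (s := T') (n := m) (by omega)
  rw [← hT', ← hTc, ← Pool.ER.TR.pr_perm_col k n T', ← Pool.ER.TR.pr_perm_col k n T]
  apply Pool.ER.pr_mono
  intro π hπ
  exact Pool.ER.TR.Col_mono (Finset.map_subset_map.2 hT) hπ

theorem ps_le_one (k n m : ℕ) : Pool.ER.ps k n m ≤ 1 := by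
  unfold Pool.ER.ps
  apply div_le_one_of_le₀ _ (Nat.cast_nonneg _)
  have hinj : Function.Injective
      (fun G : {G : SimpleGraph (Fin n) // G.edgeSet.ncard = m ∧ G.Colorable k} =>
        (⟨G.1, G.2.1⟩ : {G : SimpleGraph (Fin n) // G.edgeSet.ncard = m})) := by
    intro a b hab
    exact Subtype.ext (by simpa using hab)
  exact_mod_cast Nat.card_le_card_of_injective _ hinj

/-- **Erdős's question, answered positively**: for every `k ≥ 3` there is a constant `c ≥ 0` such that
for every sequence `M(n)` of numbers of edges and every `ε > 0`: if `M(n) ≤ (c - ε) n` for all large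
`n`, then `χ(G(n, M(n))) ≤ k` asymptotically almost surely; if `M(n) ≥ (c + ε) n` for all large `n`,
then `χ(G(n, M(n))) > k` asymptotically almost surely. -/
theorem result (k : ℕ) (hk : 3 ≤ k) :
    ∃ c : ℝ, 0 ≤ c ∧ ∀ M : ℕ → ℕ, (∀ n, M n ≤ n.choose 2) → ∀ ε : ℝ, 0 < ε →
      ((∀ᶠ n : ℕ in atTop, (M n : ℝ) ≤ (c - ε) * n) →
        Tendsto (fun n => chiProb k n (M n)) atTop (nhds 1)) ∧
      ((∀ᶠ n : ℕ in atTop, (c + ε) * n ≤ (M n : ℝ)) →
        Tendsto (fun n => chiProb k n (M n)) atTop (nhds 0)) := by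
  obtain ⟨c, hc⟩ := Pool.ER.MainFinal k hk
  have hc0 : 0 ≤ c := by
    by_contra hneg
    push Not at hneg
    have h1 := (hc (-c / 2) (by linarith)).2
    have h2 : (fun n : ℕ => Pool.ER.ps k n ⌊(c + -c / 2) * (n : ℝ)⌋₊) = fun _ => (1 : ℝ) := by
      funext n
      have : ⌊(c + -c / 2) * (n : ℝ)⌋₊ = 0 := by
        apply Nat.floor_of_nonpos
        have : (0 : ℝ) ≤ n := Nat.cast_nonneg n
        nlinarith
      rw [this, Pool.ER.MainH73.ps_zero k n (by omega)]
    rw [h2] at h1
    have h3 := tendsto_nhds_unique h1 tendsto_const_nhds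
    norm_num at h3
  refine ⟨c, hc0, ?_⟩
  intro M hM ε hε
  have hfl : ∀ b : ℝ, ∀ᶠ n : ℕ in atTop, ⌊b * (n : ℝ)⌋₊ ≤ n.choose 2 :=
    Pool.ER.MainH73.floor_le_choose
  constructor
  · intro h
    refine tendsto_of_tendsto_of_tendsto_of_le_of_le' (hc ε hε).1 tendsto_const_nhds ?_ ?_
    · filter_upwards [h, hfl (c - ε)] with n hn hn2
      rw [chiProb_eq]
      exact ps_anti k n _ _ (Nat.le_floor hn) hn2
    · exact Eventually.of_forall fun n => by rw [chiProb_eq]; exact ps_le_one _ _ _
  · intro h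
    refine tendsto_of_tendsto_of_tendsto_of_le_of_le' tendsto_const_nhds (hc ε hε).2 ?_ ?_
    · exact Eventually.of_forall fun n => by
        rw [chiProb_eq]; exact Pool.ER.MainH73.ps_nonneg _ _ _
    · filter_upwards [h] with n hn
      rw [chiProb_eq]
      exact ps_anti k n _ _ (Nat.floor_le_of_le hn) (hM n)

end Pool.Agent.Results.MP_3e81b4_pr.ColourabilityThreshold
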